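import Pool.Agent.MP_811ee8_lc.H81.Upper
import Pool.Agent.MP_811ee8_lc.H81.Lower

open Pool.Agent.MP_811ee8_lc.H81

/-- The answer for vocabularies bounded by the diagram size, and for unrestricted vocabularies. -/
theorem Pool.Agent.Results.MP_811ee8_lc.BothReadings.result :
    (∃ τ : ∀ n : ℕ, BDD (Fin n ⊕ Fin n) → Prog (Fin n), Correct τ ∧
      (∀ (n : ℕ) (Ω : BDD (Fin n ⊕ Fin n)),
        (τ n Ω).len ≤ 24 * (n + 1) * (3 * Ω.size) ^ (Nat.log 2 Ω.size + 2)) ∧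
      ∀ c δ : ℝ, 0 < c → 0 < δ → ∃ N0 : ℕ, ∀ (n : ℕ) (Ω : BDD (Fin n ⊕ Fin n)),
        n ≤ Ω.size → N0 ≤ Ω.size → ((τ n Ω).len : ℝ) < 2 ^ (c * (Ω.size : ℝ) ^ δ)) ∧
    (∀ τ : ∀ n : ℕ, BDD (Fin n ⊕ Fin n) → Prog (Fin n), Correct τ →
      ∀ N0 : ℕ, ∃ (n : ℕ) (Ω : BDD (Fin n ⊕ Fin n)),
        Ω.Reduced ∧ N0 ≤ Ω.size ∧ 2 ^ Ω.size ≤ (τ n Ω).len) :=
  ⟨upper, lower⟩
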